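import Pool.Agent.U585.GC.Cnt

/-!
# The sum of the squares of the coefficients
-/

set_option autoImplicit false
set_option linter.unusedSectionVars false

open Finset

namespace Pool.Agent.U585.GC

lemma pair_card (N d : ℕ) {H : ℝ} (hd : 1 ≤ d) (hH : 0 ≤ H) :
    (((Icc 1 N ×ˢ Icc 1 N).filter (fun z : ℕ × ℕ => d ∣ z.1 ∧ d ∣ z.2 ∧ z.1 ≠ z.2 ∧
      |(z.1 : ℝ) - z.2| < H)).card : ℝ) ≤ 2 * N * H / d ^ 2 := by
  classical
  have hd0 : (0 : ℝ) < d := by exact_mod_cast hd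
  set L : ℕ := ⌊H / d⌋₊ with hL
  set T : Finset (ℕ × ℤ) := Icc 1 (N / d) ×ˢ (Icc (-(L : ℤ)) L).erase 0 with hT
  have hcard : T.card = (N / d) * (2 * L) := by
    rw [hT, card_product, Nat.card_Icc, Nat.add_sub_cancel, card_erase_of_mem, Int.card_Icc]
    · congr 1
      omega
    · rw [mem_Icc]; constructor <;> omega
  have h1 : ((Icc 1 N ×ˢ Icc 1 N).filter (fun z : ℕ × ℕ => d ∣ z.1 ∧ d ∣ z.2 ∧ z.1 ≠ z.2 ∧
      |(z.1 : ℝ) - z.2| < H)).card ≤ T.card := by
    refine card_le_card_of_injOn (fun z => (z.1 / d, ((z.2 / d : ℕ) : ℤ) - ((z.1 / d : ℕ) : ℤ)))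
      ?_ ?_
    · rintro ⟨m, n⟩ hz
      rw [mem_coe, mem_filter, mem_product, mem_Icc, mem_Icc] at hz
      obtain ⟨⟨⟨a1, a2⟩, a3, a4⟩, ⟨k, rfl⟩, ⟨l, rfl⟩, hne, hlt⟩ := hz
      dsimp only at *
      rw [Nat.mul_div_cancel_left _ hd, Nat.mul_div_cancel_left _ hd, mem_coe, hT, mem_product,
        mem_Icc, mem_erase, mem_Icc]
      refine ⟨⟨?_, ?_⟩, ?_, ?_⟩
      · exact Nat.one_le_iff_ne_zero.2 (by rintro rfl; simp at a1)
      · rw [Nat.le_div_iff_mul_le hd]; linarith [mul_comm k d]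
      · intro h0
        have : l = k := by omega
        exact hne (by rw [this])
      · push_cast at hlt
        rw [← mul_sub, abs_mul, abs_of_pos hd0] at hlt
        have h2 : |(k : ℝ) - l| ≤ H / d := by
          rw [le_div_iff₀ hd0, mul_comm]; exact hlt.le
        have h3 : ((Int.natAbs ((k : ℤ) - l) : ℕ) : ℝ) ≤ H / d := by
          rw [Nat.cast_natAbs]
          push_cast
          exact h2
        have h4 : Int.natAbs ((k : ℤ) - l) ≤ L := Nat.le_floor h3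
        dsimp only
        omega
    · rintro ⟨m, n⟩ hz ⟨m', n'⟩ hz' he
      rw [mem_coe, mem_filter] at hz hz'
      obtain ⟨-, ⟨k, rfl⟩, ⟨l, rfl⟩, -, -⟩ := hz
      obtain ⟨-, ⟨k', rfl⟩, ⟨l', rfl⟩, -, -⟩ := hz'
      simp only [Prod.mk.injEq] at he
      rw [Nat.mul_div_cancel_left _ hd, Nat.mul_div_cancel_left _ hd,
        Nat.mul_div_cancel_left _ hd, Nat.mul_div_cancel_left _ hd] at he
      have h2 : l = l' := by omega
      rw [he.1, h2]
  have h2 : ((N / d : ℕ) : ℝ) ≤ N / d := Nat.cast_div_le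
  have h3 : (L : ℝ) ≤ H / d := Nat.floor_le (by positivity)
  calc _ ≤ (T.card : ℝ) := by exact_mod_cast h1
    _ = ((N / d : ℕ) : ℝ) * (2 * L) := by rw [hcard]; push_cast; ring
    _ ≤ (N / d) * (2 * (H / d)) := by
        refine mul_le_mul h2 (by linarith) (by positivity) (by positivity)
    _ = _ := by field_simp

lemma harm (H : ℝ) (hH : 1 ≤ H) : ∑ d ∈ Icc 1 ⌊H⌋₊, (1 : ℝ) / d ≤ 1 + Real.log H := by
  have h1 := harmonic_floor_le_one_add_log H hH
  rw [harmonic_eq_sum_Icc] at h1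
  push_cast at h1
  refine le_trans (le_of_eq ?_) h1
  exact sum_congr rfl fun d _ => one_div _

/-- the sum of the greatest common divisors -/
lemma gcd_sum {X H : ℝ} {N : ℕ} (hH : 1 ≤ H) :
    ∑ z ∈ pw X H N, (hh z : ℝ) ≤ 2 * N * H * (1 + Real.log H) := by
  classical
  have hmap : ∀ z ∈ pw X H N, hh z ∈ Icc 1 ⌊H⌋₊ ∧ z ∈ (Icc 1 N ×ˢ Icc 1 N).filter
      (fun y : ℕ × ℕ => hh z ∣ y.1 ∧ hh z ∣ y.2 ∧ y.1 ≠ y.2 ∧ |(y.1 : ℝ) - y.2| < H) := by
    intro z hz
    unfold pw at hz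
    rw [mem_filter] at hz
    have a := mem_pr hz.1
    have b := (wt_pos hz.2).2.2.2.2
    have c1 : hh z ∣ z.1 := ⟨_, fst_eq a.2.2.2.2.1⟩
    have c2 : hh z ∣ z.2 := ⟨_, snd_eq a.2.2.2.2.2.1⟩
    refine ⟨?_, ?_⟩
    · rw [mem_Icc]
      refine ⟨hh_pos z, Nat.le_floor ?_⟩
      have d1 : ((hh z : ℕ) : ℤ) ∣ (z.1 : ℤ) - z.2 :=
        dvd_sub (by exact_mod_cast c1) (by exact_mod_cast c2)
      have d2 : (z.1 : ℤ) - z.2 ≠ 0 := by
        have := a.2.2.2.2.2.2
        omega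
      have d3 : ((hh z : ℕ) : ℤ) ≤ |(z.1 : ℤ) - z.2| :=
        Int.le_of_dvd (abs_pos.2 d2) ((dvd_abs _ _).2 d1)
      have d4 : ((hh z : ℕ) : ℝ) ≤ |(z.1 : ℝ) - z.2| := by exact_mod_cast d3
      linarith
    · rw [mem_filter, mem_product, mem_Icc, mem_Icc]
      exact ⟨⟨⟨a.1, a.2.1⟩, a.2.2.1, a.2.2.2.1⟩, c1, c2, a.2.2.2.2.2.2, b⟩
  rw [← sum_fiberwise_of_maps_to (fun z hz => (hmap z hz).1)]
  have h1 : ∀ d ∈ Icc 1 ⌊H⌋₊, ∑ z ∈ (pw X H N).filter (fun z => hh z = d), (hh z : ℝ) ≤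
      2 * N * H * (1 / d) := by
    intro d hd
    rw [mem_Icc] at hd
    have hd0 : (0 : ℝ) < d := by exact_mod_cast hd.1
    have h2 : ∑ z ∈ (pw X H N).filter (fun z => hh z = d), (hh z : ℝ) =
        d * ((pw X H N).filter (fun z => hh z = d)).card := by
      rw [sum_congr rfl (g := fun _ => (d : ℝ)), sum_const, nsmul_eq_mul, mul_comm]
      intro z hz
      rw [mem_filter] at hz
      rw [hz.2]
    rw [h2]
    have h3 : (pw X H N).filter (fun z => hh z = d) ⊆ (Icc 1 N ×ˢ Icc 1 N).filter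
        (fun z : ℕ × ℕ => d ∣ z.1 ∧ d ∣ z.2 ∧ z.1 ≠ z.2 ∧ |(z.1 : ℝ) - z.2| < H) := by
      intro z hz
      rw [mem_filter] at hz
      have := (hmap z hz.1).2
      rw [hz.2] at this
      exact this
    have h4 : (((pw X H N).filter (fun z => hh z = d)).card : ℝ) ≤ 2 * N * H / d ^ 2 :=
      le_trans (by exact_mod_cast card_le_card h3) (pair_card N d hd.1 (by linarith))
    calc (d : ℝ) * ((pw X H N).filter (fun z => hh z = d)).card ≤ d * (2 * N * H / d ^ 2) :=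
          mul_le_mul_of_nonneg_left h4 hd0.le
      _ = _ := by field_simp
  refine (sum_le_sum h1).trans ?_
  rw [← mul_sum]
  exact mul_le_mul_of_nonneg_left (harm H hH) (by positivity)

/-- `c ^ |U|` is small compared with a power of the product of the primes of `U` -/
lemma small_pow (c δ : ℝ) (hc : 1 ≤ c) (hδ : 0 < δ) : ∃ K : ℝ, 1 ≤ K ∧ ∀ U : Finset ℕ,
    (∀ p ∈ U, p.Prime) → c ^ U.card ≤ K * ((∏ p ∈ U, p : ℕ) : ℝ) ^ δ := by
  classical
  set P0 : ℕ := ⌈c ^ (1 / δ)⌉₊ with hP0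
  refine ⟨c ^ (P0 + 1), one_le_pow₀ hc, fun U hU => ?_⟩
  have hc0 : 0 < c := by linarith
  have h1 : (∏ p ∈ U, (p : ℝ) ^ δ) = ((∏ p ∈ U, p : ℕ) : ℝ) ^ δ := by
    rw [Nat.cast_prod, Real.finsetProd_rpow]
    exact fun p _ => Nat.cast_nonneg _
  rw [← h1]
  have h2 : c ^ U.card = (∏ p ∈ U.filter (fun p => p ≤ P0), c) *
      ∏ p ∈ U.filter (fun p => ¬ p ≤ P0), c := by
    rw [prod_filter_mul_prod_filter_not, prod_const]
  have h3 : ∏ p ∈ U.filter (fun p => p ≤ P0), c ≤ c ^ (P0 + 1) := by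
    rw [prod_const]
    refine pow_le_pow_right₀ hc ?_
    have : (U.filter (fun p => p ≤ P0)).card ≤ (range (P0 + 1)).card := by
      refine card_le_card fun p hp => ?_
      rw [mem_filter] at hp
      rw [mem_range]
      omega
    simpa using this
  have h4 : ∏ p ∈ U.filter (fun p => ¬ p ≤ P0), c ≤
      ∏ p ∈ U.filter (fun p => ¬ p ≤ P0), (p : ℝ) ^ δ := by
    refine prod_le_prod (fun p _ => hc0.le) fun p hp => ?_
    rw [mem_filter] at hp
    have h5 : c ^ (1 / δ) ≤ p := by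
      have h6 := Nat.le_ceil (c ^ (1 / δ))
      have h7 : (P0 : ℝ) ≤ p := by exact_mod_cast (not_le.1 hp.2).le
      linarith
    calc c = (c ^ (1 / δ)) ^ δ := by
          rw [← Real.rpow_mul hc0.le, one_div_mul_cancel hδ.ne', Real.rpow_one]
      _ ≤ (p : ℝ) ^ δ := Real.rpow_le_rpow (by positivity) h5 hδ.le
  have h5 : ∏ p ∈ U.filter (fun p => ¬ p ≤ P0), (p : ℝ) ^ δ ≤ ∏ p ∈ U, (p : ℝ) ^ δ := by
    refine prod_le_prod_of_subset_of_one_le (filter_subset _ _) (fun p _ => by positivity) ?_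
    intro p hp _
    have : (1 : ℝ) ≤ p := by exact_mod_cast (hU p hp).one_lt.le
    exact Real.one_le_rpow this hδ.le
  rw [h2]
  exact mul_le_mul h3 (h4.trans h5) (prod_nonneg fun p _ => hc0.le) (by positivity)

lemma log_pow (δ : ℝ) (hδ : 0 < δ) {X : ℝ} (hX : 1 ≤ X) :
    1 + Real.log X ≤ (1 + 1 / δ) * X ^ δ := by
  have h1 : 1 ≤ X ^ δ := Real.one_le_rpow hX hδ.le
  have h2 := Real.log_le_rpow_div (by linarith : 0 ≤ X) hδ
  calc 1 + Real.log X ≤ X ^ δ + X ^ δ / δ := add_le_add h1 h2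
    _ = _ := by ring

/-- the weighted sum of the squares of the coefficients -/
theorem l2_bound (c δ : ℝ) (hc : 1 ≤ c) (hδ : 0 < δ) : ∃ K : ℝ, 0 < K ∧ ∀ (X H : ℝ) (N : ℕ),
    1 ≤ X → 1 ≤ H → H ≤ X → (N : ℝ) ≤ 4 * X →
      ∑ U ∈ (PN N).powerset, c ^ U.card * cf X H N U ^ 2 ≤ K * X ^ δ * (H ^ 3 / X) := by
  classical
  obtain ⟨K1, hK1, hsm⟩ := small_pow (2 * c) (δ / 4) (by linarith) (by linarith)
  refine ⟨40 * K1 * 16 ^ (δ / 4) * (1 + 1 / (δ / 2)), by positivity, ?_⟩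
  intro X H N hX hH hHX hN
  have hX0 : 0 < X := by linarith
  have hH0 : 0 < H := by linarith
  set r : Finset ℕ → ℝ := fun U => (((pw X H N).filter (fun z => dl z = U)).card : ℝ) with hr
  -- the coefficients
  have h1 : ∀ U, cf X H N U ^ 2 ≤ (H / X) ^ 2 * r U ^ 2 := by
    intro U
    rw [← mul_pow]
    have h2 : ∑ z ∈ (pr N).filter (fun z => dl z = U), wt X H z.1 z.2 =
        ∑ z ∈ (pw X H N).filter (fun z => dl z = U), wt X H z.1 z.2 := by
      have e : (pw X H N).filter (fun z => dl z = U) =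
          ((pr N).filter (fun z => dl z = U)).filter (fun z => 0 < wt X H z.1 z.2) := by
        unfold pw
        ext z
        simp only [mem_filter]
        tauto
      rw [e]
      refine (sum_filter_of_ne ?_).symm
      intro z _ hz
      exact lt_of_le_of_ne (wt_nonneg _ _ _ _) (Ne.symm hz)
    have h3 : ∑ z ∈ (pw X H N).filter (fun z => dl z = U), wt X H z.1 z.2 ≤ r U * H := by
      rw [hr]
      beta_reduce
      rw [← nsmul_eq_mul, ← sum_const]
      exact sum_le_sum fun z _ => wt_le hH0.le _ _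
    have h4 : 0 ≤ cf X H N U := by
      unfold cf
      exact mul_nonneg (by positivity) (sum_nonneg fun z _ => wt_nonneg _ _ _ _)
    refine pow_le_pow_left₀ h4 ?_ 2
    unfold cf
    rw [h2]
    calc 1 / X * ∑ z ∈ (pw X H N).filter (fun z => dl z = U), wt X H z.1 z.2
        ≤ 1 / X * (r U * H) := mul_le_mul_of_nonneg_left h3 (by positivity)
      _ = _ := by ring
  have h5 : ∑ U ∈ (PN N).powerset, c ^ U.card * cf X H N U ^ 2 ≤
      (H / X) ^ 2 * ∑ U ∈ (PN N).powerset, c ^ U.card * r U ^ 2 := by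
    rw [mul_sum]
    refine sum_le_sum fun U _ => ?_
    calc c ^ U.card * cf X H N U ^ 2 ≤ c ^ U.card * ((H / X) ^ 2 * r U ^ 2) :=
          mul_le_mul_of_nonneg_left (h1 U) (by positivity)
      _ = _ := by ring
  have h6 : ∑ U ∈ (PN N).powerset, c ^ U.card * r U ^ 2 =
      ∑ z ∈ pw X H N, c ^ (dl z).card * r (dl z) := by
    have hm : ∀ z ∈ pw X H N, dl z ∈ (PN N).powerset := by
      intro z hz
      unfold pw at hz
      rw [mem_filter] at hz
      exact dl_sub hz.1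
    rw [← sum_fiberwise_of_maps_to hm]
    refine sum_congr rfl fun U _ => ?_
    have : ∑ z ∈ (pw X H N).filter (fun z => dl z = U), c ^ (dl z).card * r (dl z) =
        ∑ z ∈ (pw X H N).filter (fun z => dl z = U), c ^ U.card * r U := by
      refine sum_congr rfl fun z hz => ?_
      rw [mem_filter] at hz
      rw [hz.2]
    rw [this, sum_const, nsmul_eq_mul]
    rw [hr]
    ring
  have h7 : ∀ z ∈ pw X H N, c ^ (dl z).card * r (dl z) ≤
      (5 * K1 * 16 ^ (δ / 4) * X ^ (δ / 2)) * (hh z : ℝ) := by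
    intro z hz
    have hz' := hz
    unfold pw at hz'
    rw [mem_filter] at hz'
    have a := mem_pr hz'.1
    have b1 : r (dl z) ≤ 2 ^ (dl z).card * (5 * (hh z : ℝ)) := by
      have := fiber_card hX hHX hz
      rw [hr]
      beta_reduce
      exact_mod_cast this
    have b2 : (2 * c) ^ (dl z).card ≤ K1 * ((∏ p ∈ dl z, p : ℕ) : ℝ) ^ (δ / 4) := by
      refine hsm _ fun p hp => ?_
      have := mem_powerset.1 (dl_sub hz'.1) hp
      exact (mem_PN.1 this).1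
    have b3 : ((∏ p ∈ dl z, p : ℕ) : ℝ) ≤ 16 * X ^ 2 := by
      have c1 := mul_eq a.2.2.2.2.1 a.2.2.2.2.2.1
      have c2 : ∏ p ∈ dl z, p ≤ N * N := by
        calc ∏ p ∈ dl z, p = 1 * ∏ p ∈ dl z, p := (one_mul _).symm
          _ ≤ hh z ^ 2 * ∏ p ∈ dl z, p := Nat.mul_le_mul_right _ (Nat.one_le_pow _ _ (hh_pos z))
          _ = z.1 * z.2 := c1.symm
          _ ≤ N * N := Nat.mul_le_mul a.2.1 a.2.2.2.1
      have c3 : ((∏ p ∈ dl z, p : ℕ) : ℝ) ≤ (N : ℝ) * N := by exact_mod_cast c2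
      have hN0 : (0 : ℝ) ≤ N := Nat.cast_nonneg _
      nlinarith
    have b4 : ((∏ p ∈ dl z, p : ℕ) : ℝ) ^ (δ / 4) ≤ 16 ^ (δ / 4) * X ^ (δ / 2) := by
      refine (Real.rpow_le_rpow (Nat.cast_nonneg _) b3 (by linarith)).trans (le_of_eq ?_)
      rw [Real.mul_rpow (by norm_num) (by positivity), ← Real.rpow_natCast X 2,
        ← Real.rpow_mul hX0.le]
      congr 2
      push_cast
      ring
    calc c ^ (dl z).card * r (dl z) ≤ c ^ (dl z).card * (2 ^ (dl z).card * (5 * (hh z : ℝ))) :=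
          mul_le_mul_of_nonneg_left b1 (by positivity)
      _ = (2 * c) ^ (dl z).card * (5 * (hh z : ℝ)) := by rw [mul_pow]; ring
      _ ≤ (K1 * (16 ^ (δ / 4) * X ^ (δ / 2))) * (5 * (hh z : ℝ)) := by
          refine mul_le_mul_of_nonneg_right (b2.trans ?_) (by positivity)
          exact mul_le_mul_of_nonneg_left b4 (by linarith)
      _ = _ := by ring
  have h8 : ∑ z ∈ pw X H N, c ^ (dl z).card * r (dl z) ≤
      (5 * K1 * 16 ^ (δ / 4) * X ^ (δ / 2)) * (2 * N * H * (1 + Real.log H)) := by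
    refine (sum_le_sum h7).trans ?_
    rw [← mul_sum]
    exact mul_le_mul_of_nonneg_left (gcd_sum hH) (by positivity)
  have h9 : 1 + Real.log H ≤ (1 + 1 / (δ / 2)) * X ^ (δ / 2) :=
    le_trans (by linarith [Real.log_le_log hH0 hHX]) (log_pow (δ / 2) (by linarith) hX)
  have h10 : 2 * N * H * (1 + Real.log H) ≤ 2 * (4 * X) * H * ((1 + 1 / (δ / 2)) * X ^ (δ / 2)) := by
    have hl : 0 ≤ Real.log H := Real.log_nonneg hH
    refine mul_le_mul ?_ h9 (by linarith) (by positivity)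
    exact mul_le_mul_of_nonneg_right (by linarith) hH0.le
  have h11 : X ^ (δ / 2) * X ^ (δ / 2) = X ^ δ := by
    rw [← Real.rpow_add hX0]; congr 1; ring
  refine h5.trans ?_
  rw [h6]
  calc (H / X) ^ 2 * ∑ z ∈ pw X H N, c ^ (dl z).card * r (dl z)
      ≤ (H / X) ^ 2 * ((5 * K1 * 16 ^ (δ / 4) * X ^ (δ / 2)) *
          (2 * (4 * X) * H * ((1 + 1 / (δ / 2)) * X ^ (δ / 2)))) := by
        refine mul_le_mul_of_nonneg_left (h8.trans ?_) (by positivity)
        exact mul_le_mul_of_nonneg_left h10 (by positivity)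
    _ = 40 * K1 * 16 ^ (δ / 4) * (1 + 1 / (δ / 2)) * (X ^ (δ / 2) * X ^ (δ / 2)) * (H ^ 3 / X) := by
        field_simp
        ring
    _ = _ := by rw [h11]

end Pool.Agent.U585.GC
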