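import Pool.Agent.U585.GC.Win

/-!
# Counting the products of four integers in windows which are squares
-/

set_option autoImplicit false
set_option linter.unusedSectionVars false

open Finset

namespace Pool.Agent.U585.GC

/-- the primes up to `N` -/
def PN (N : ℕ) : Finset ℕ := (range (N + 1)).filter Nat.Prime

lemma mem_PN {N p : ℕ} : p ∈ PN N ↔ p.Prime ∧ p ≤ N := by
  rw [PN, mem_filter, mem_range]
  constructor
  · rintro ⟨h1, h2⟩; exact ⟨h2, by omega⟩
  · rintro ⟨h1, h2⟩; exact ⟨by omega, h1⟩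

/-- pairs of different squarefree integers -/
noncomputable def pr (N : ℕ) : Finset (ℕ × ℕ) :=
  open Classical in
  (Icc 1 N ×ˢ Icc 1 N).filter (fun z => Squarefree z.1 ∧ Squarefree z.2 ∧ z.1 ≠ z.2)

/-- the primes dividing exactly one of the two integers -/
def dl (z : ℕ × ℕ) : Finset ℕ := symmDiff z.1.primeFactors z.2.primeFactors

/-- the greatest common divisor -/
def hh (z : ℕ × ℕ) : ℕ := ∏ p ∈ z.1.primeFactors ∩ z.2.primeFactors, p

/-- the coefficients of the variance -/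
noncomputable def cf (X H : ℝ) (N : ℕ) (U : Finset ℕ) : ℝ :=
  (1 / X) * ∑ z ∈ (pr N).filter (fun z => dl z = U), wt X H z.1 z.2

/-- the diagonal part of the variance -/
noncomputable def dg (X H : ℝ) (N : ℕ) : ℝ :=
  open Classical in (1 / X) * ∑ n ∈ (Icc 1 N).filter (fun n => Squarefree n), wt X H n n

lemma mem_pr {N : ℕ} {z : ℕ × ℕ} (h : z ∈ pr N) : 1 ≤ z.1 ∧ z.1 ≤ N ∧ 1 ≤ z.2 ∧ z.2 ≤ N ∧
    Squarefree z.1 ∧ Squarefree z.2 ∧ z.1 ≠ z.2 := by
  classical
  unfold pr at h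
  rw [mem_filter, mem_product, mem_Icc, mem_Icc] at h
  exact ⟨h.1.1.1, h.1.1.2, h.1.2.1, h.1.2.2, h.2.1, h.2.2.1, h.2.2.2⟩

lemma dl_sub {N : ℕ} {z : ℕ × ℕ} (h : z ∈ pr N) : dl z ∈ (PN N).powerset := by
  rw [mem_powerset]
  intro p hp
  have h1 := mem_pr h
  unfold dl at hp
  rw [mem_symmDiff] at hp
  rw [mem_PN]
  rcases hp with ⟨hp, _⟩ | ⟨hp, _⟩
  · exact ⟨Nat.prime_of_mem_primeFactors hp, (Nat.le_of_mem_primeFactors hp).trans h1.2.1⟩
  · exact ⟨Nat.prime_of_mem_primeFactors hp, (Nat.le_of_mem_primeFactors hp).trans h1.2.2.2.1⟩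

lemma prod_symm {s : ℕ → ℝ} (hs : ∀ p, s p = 1 ∨ s p = -1) (A B : Finset ℕ) :
    (∏ p ∈ A, s p) * ∏ p ∈ B, s p = ∏ p ∈ symmDiff A B, s p := by
  have h1 : (∏ p ∈ A ∩ B, s p) * ∏ p ∈ A \ B, s p = ∏ p ∈ A, s p := prod_inter_mul_prod_sdiff A B s
  have h2 : (∏ p ∈ B ∩ A, s p) * ∏ p ∈ B \ A, s p = ∏ p ∈ B, s p := prod_inter_mul_prod_sdiff B A s
  have h3 : (∏ p ∈ A ∩ B, s p) * ∏ p ∈ A ∩ B, s p = 1 := by
    rw [← prod_mul_distrib]
    refine prod_eq_one fun p _ => ?_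
    rcases hs p with h | h <;> rw [h] <;> norm_num
  have h4 : ∏ p ∈ symmDiff A B, s p = (∏ p ∈ A \ B, s p) * ∏ p ∈ B \ A, s p := by
    rw [symmDiff_def, sup_eq_union, prod_union]
    exact disjoint_sdiff_sdiff
  rw [h4, ← h1, ← h2, inter_comm B A]
  calc _ = ((∏ p ∈ A ∩ B, s p) * ∏ p ∈ A ∩ B, s p) *
        ((∏ p ∈ A \ B, s p) * ∏ p ∈ B \ A, s p) := by ring
    _ = _ := by rw [h3, one_mul]

/-- the variance is the diagonal plus a polynomial -/
theorem VV_eq {s : ℕ → ℝ} (hs : ∀ p, s p = 1 ∨ s p = -1) {X H : ℝ} {N : ℕ} (hX : 0 < X)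
    (hH : 0 < H) (hHX : H ≤ X) (hN : 3 * X ≤ N) :
    VV s X H = dg X H N + poly (PN N) (cf X H N) s := by
  classical
  rw [VV_expand s hX hH hHX hN]
  have h1 : ∑ z ∈ Icc 1 N ×ˢ Icc 1 N, rf s z.1 * rf s z.2 * wt X H z.1 z.2 =
      (∑ n ∈ (Icc 1 N).filter (fun n => Squarefree n), wt X H n n) +
      ∑ z ∈ pr N, (∏ p ∈ dl z, s p) * wt X H z.1 z.2 := by
    have h2 : ∑ z ∈ Icc 1 N ×ˢ Icc 1 N, rf s z.1 * rf s z.2 * wt X H z.1 z.2 =
        ∑ z ∈ (Icc 1 N ×ˢ Icc 1 N).filter (fun z => Squarefree z.1 ∧ Squarefree z.2),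
          (∏ p ∈ dl z, s p) * wt X H z.1 z.2 := by
      rw [sum_filter]
      refine sum_congr rfl fun z _ => ?_
      unfold rf dl
      by_cases ha : Squarefree z.1
      · by_cases hb : Squarefree z.2
        · rw [if_pos ha, if_pos hb, if_pos ⟨ha, hb⟩, prod_symm hs]
        · rw [if_neg hb, if_neg (fun h : Squarefree z.1 ∧ Squarefree z.2 => hb h.2)]; ring
      · rw [if_neg ha, if_neg (fun h : Squarefree z.1 ∧ Squarefree z.2 => ha h.1)]; ring
    rw [h2, ← sum_filter_add_sum_filter_not _ (fun z : ℕ × ℕ => z.1 = z.2)]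
    congr 1
    · refine (sum_nbij' (fun n => (n, n)) (fun z => z.1) ?_ ?_ ?_ ?_ ?_).symm
      · intro n hn
        rw [mem_filter] at hn
        rw [mem_filter, mem_filter, mem_product]
        exact ⟨⟨⟨hn.1, hn.1⟩, hn.2, hn.2⟩, rfl⟩
      · intro z hz
        rw [mem_filter, mem_filter, mem_product] at hz
        rw [mem_filter]
        exact ⟨hz.1.1.1, hz.1.2.1⟩
      · intro n _; rfl
      · intro z hz
        rw [mem_filter] at hz
        exact Prod.ext rfl hz.2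
      · intro n _
        unfold dl
        simp
    · unfold pr
      rw [filter_filter]
      refine sum_congr ?_ fun _ _ => rfl
      ext z
      simp only [mem_filter]
      tauto
  have h3 : ∑ z ∈ pr N, (∏ p ∈ dl z, s p) * wt X H z.1 z.2 =
      ∑ U ∈ (PN N).powerset, (∑ z ∈ (pr N).filter (fun z => dl z = U), wt X H z.1 z.2) *
        ∏ p ∈ U, s p := by
    rw [← sum_fiberwise_of_maps_to (fun z hz => dl_sub hz)]
    refine sum_congr rfl fun U _ => ?_
    rw [sum_mul]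
    refine sum_congr rfl fun z hz => ?_
    rw [mem_filter] at hz
    rw [hz.2, mul_comm]
  rw [h1, mul_add, h3]
  unfold dg poly cf
  congr 1
  rw [mul_sum]
  refine sum_congr rfl fun U _ => ?_
  ring

/-- the pairs which occur in one window -/
noncomputable def pw (X H : ℝ) (N : ℕ) : Finset (ℕ × ℕ) :=
  open Classical in (pr N).filter (fun z => 0 < wt X H z.1 z.2)

lemma fst_eq {z : ℕ × ℕ} (h : Squarefree z.1) :
    z.1 = hh z * ∏ p ∈ z.1.primeFactors \ z.2.primeFactors, p := by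
  unfold hh
  rw [prod_inter_mul_prod_sdiff, Nat.prod_primeFactors_of_squarefree h]

lemma snd_eq {z : ℕ × ℕ} (h : Squarefree z.2) :
    z.2 = hh z * ∏ p ∈ z.2.primeFactors \ z.1.primeFactors, p := by
  unfold hh
  rw [inter_comm, prod_inter_mul_prod_sdiff, Nat.prod_primeFactors_of_squarefree h]

lemma hh_pos (z : ℕ × ℕ) : 1 ≤ hh z := by
  unfold hh
  refine Nat.one_le_iff_ne_zero.2 (prod_ne_zero_iff.2 fun p hp => ?_)
  rw [mem_inter] at hp
  exact (Nat.prime_of_mem_primeFactors hp.1).ne_zero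

lemma dl_prod (z : ℕ × ℕ) : ∏ p ∈ dl z, p =
    (∏ p ∈ z.1.primeFactors \ z.2.primeFactors, p) *
      ∏ p ∈ z.2.primeFactors \ z.1.primeFactors, p := by
  unfold dl
  rw [symmDiff_def, sup_eq_union, prod_union disjoint_sdiff_sdiff]

lemma mul_eq {z : ℕ × ℕ} (h1 : Squarefree z.1) (h2 : Squarefree z.2) :
    z.1 * z.2 = hh z ^ 2 * ∏ p ∈ dl z, p := by
  rw [dl_prod]
  have e1 := fst_eq h1
  have e2 := snd_eq h2
  calc z.1 * z.2 = (hh z * ∏ p ∈ z.1.primeFactors \ z.2.primeFactors, p) *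
        (hh z * ∏ p ∈ z.2.primeFactors \ z.1.primeFactors, p) := by rw [← e1, ← e2]
    _ = _ := by ring

lemma dl_pos (z : ℕ × ℕ) : 1 ≤ ∏ p ∈ dl z, p := by
  refine Nat.one_le_iff_ne_zero.2 (prod_ne_zero_iff.2 fun p hp => ?_)
  unfold dl at hp
  rw [mem_symmDiff] at hp
  rcases hp with ⟨hp, _⟩ | ⟨hp, _⟩ <;> exact (Nat.prime_of_mem_primeFactors hp).ne_zero

/-- the number of pairs with the same product modulo squares -/
lemma fiber_card {X H : ℝ} {N : ℕ} (hX : 1 ≤ X) (hHX : H ≤ X) {z₀ : ℕ × ℕ}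
    (h₀ : z₀ ∈ pw X H N) :
    ((pw X H N).filter (fun z => dl z = dl z₀)).card ≤ 2 ^ (dl z₀).card * (5 * hh z₀) := by
  classical
  have hcard : ((dl z₀).powerset ×ˢ Icc 1 (5 * hh z₀)).card = 2 ^ (dl z₀).card * (5 * hh z₀) := by
    rw [card_product, card_powerset, Nat.card_Icc, Nat.add_sub_cancel]
  rw [← hcard]
  refine card_le_card_of_injOn
    (fun z => (z.1.primeFactors \ z.2.primeFactors, hh z)) ?_ ?_
  · intro z hz
    rw [mem_coe, mem_filter] at hz
    have hz1 := hz.1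
    unfold pw at hz1 h₀
    rw [mem_filter] at hz1 h₀
    have a1 := mem_pr hz1.1
    have a0 := mem_pr h₀.1
    have b1 := wt_pos hz1.2
    have b0 := wt_pos h₀.2
    rw [mem_coe, mem_product, mem_powerset, mem_Icc]
    refine ⟨?_, hh_pos z, ?_⟩
    · intro p hp
      dsimp only at hp
      rw [← hz.2]
      unfold dl
      rw [mem_symmDiff]
      rw [mem_sdiff] at hp
      exact Or.inl hp
    · dsimp only
      have c1 := mul_eq a1.2.2.2.2.1 a1.2.2.2.2.2.1
      have c0 := mul_eq a0.2.2.2.2.1 a0.2.2.2.2.2.1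
      rw [hz.2] at c1
      set m := ∏ p ∈ dl z₀, p with hm
      have hm1 : 1 ≤ m := dl_pos z₀
      have c1' : (z.1 : ℝ) * z.2 = (hh z : ℝ) ^ 2 * m := by exact_mod_cast c1
      have c0' : (z₀.1 : ℝ) * z₀.2 = (hh z₀ : ℝ) ^ 2 * m := by exact_mod_cast c0
      have hmR : (1 : ℝ) ≤ m := by exact_mod_cast hm1
      have d1 : (z.1 : ℝ) * z.2 ≤ (5 * X / 2) * (5 * X / 2) :=
        mul_le_mul (by linarith [b1.2.2.1]) (by linarith [b1.2.2.2.1]) (Nat.cast_nonneg _)
          (by linarith)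
      have d0 : (X / 2) * (X / 2) ≤ (z₀.1 : ℝ) * z₀.2 :=
        mul_le_mul (by linarith [b0.1]) (by linarith [b0.2.1]) (by linarith) (Nat.cast_nonneg _)
      have e1 : (hh z : ℝ) ^ 2 * m ≤ (25 * (hh z₀ : ℝ) ^ 2) * m := by
        rw [mul_assoc, ← c0', ← c1']
        nlinarith
      have e2 : (hh z : ℝ) ^ 2 ≤ (5 * (hh z₀ : ℝ)) ^ 2 := by
        have := le_of_mul_le_mul_right e1 (by linarith)
        linarith
      have e3 : (hh z : ℝ) ≤ 5 * (hh z₀ : ℝ) :=
        le_of_sq_le_sq e2 (by positivity)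
      exact_mod_cast e3
  · intro z hz z' hz' he
    rw [mem_coe, mem_filter] at hz hz'
    simp only [Prod.mk.injEq] at he
    have hz1 := hz.1
    have hz1' := hz'.1
    unfold pw at hz1 hz1'
    rw [mem_filter] at hz1 hz1'
    have a1 := mem_pr hz1.1
    have a1' := mem_pr hz1'.1
    have f1 := fst_eq a1.2.2.2.2.1
    have f1' := fst_eq a1'.2.2.2.2.1
    have f2 := snd_eq a1.2.2.2.2.2.1
    have f2' := snd_eq a1'.2.2.2.2.2.1
    have g1 : z.1 = z'.1 := by rw [f1, f1', he.1, he.2]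
    have hd : ∀ y : ℕ × ℕ, y.2.primeFactors \ y.1.primeFactors =
        dl y \ (y.1.primeFactors \ y.2.primeFactors) := by
      intro y
      ext p
      unfold dl
      simp only [mem_sdiff, mem_symmDiff]
      tauto
    have g2 : z.2 = z'.2 := by
      rw [f2, f2', hd z, hd z', he.1, he.2, hz.2, hz'.2]
    exact Prod.ext g1 g2

end Pool.Agent.U585.GC
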