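import Pool.Agent.Y293.SF.SQF
import Pool.Agent.U585.GC.Cnt

/-!
# The diagonal part of the variance
-/

set_option autoImplicit false
set_option linter.unusedSectionVars false

open MeasureTheory Filter Topology Finset

namespace Pool.Agent.U585.GC

open Pool.Agent.Y293.SF (mu abs_mu_le count_eq moebius_hasSum)

/-- the number of squarefree integers up to `n` -/
noncomputable def Qn (n : ℕ) : ℕ :=
  open Classical in ((Finset.Icc 1 n).filter (fun m => Squarefree m)).card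

lemma min_pow {t θ : ℝ} (ht : 0 ≤ t) (h0 : 0 < θ) (h1 : θ ≤ 1) : min 1 t ≤ t ^ θ := by
  rcases le_total 1 t with h | h
  · rw [min_eq_left h]
    exact Real.one_le_rpow h h0.le
  · rw [min_eq_right h]
    rcases eq_or_lt_of_le ht with h2 | h2
    · rw [← h2, Real.zero_rpow h0.ne']
    · calc t = t ^ (1 : ℝ) := (Real.rpow_one t).symm
        _ ≤ t ^ θ := Real.rpow_le_rpow_of_exponent_ge h2 h h1

lemma Qn_bound (δ : ℝ) (hδ : 0 < δ) (hδ2 : δ ≤ 1 / 2) : ∃ C : ℝ, 0 < C ∧ ∀ n : ℕ,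
    |(Qn n : ℝ) - 6 / Real.pi ^ 2 * n| ≤ C * (n : ℝ) ^ (1 / 2 + δ) := by
  have hs : Summable fun d : ℕ => 1 / (d : ℝ) ^ (1 + 2 * δ) :=
    Real.summable_one_div_nat_rpow.2 (by linarith)
  refine ⟨(∑' d : ℕ, 1 / (d : ℝ) ^ (1 + 2 * δ)) + 1, ?_, fun n => ?_⟩
  · have : 0 ≤ ∑' d : ℕ, 1 / (d : ℝ) ^ (1 + 2 * δ) := tsum_nonneg fun d => by positivity
    linarith
  have hc := count_eq n
  have hsum1 : Summable fun d : ℕ => mu d * ((n / d ^ 2 : ℕ) : ℝ) := by
    refine summable_of_hasFiniteSupport ?_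
    refine (Finset.finite_toSet (Finset.range (n + 1))).subset fun d hd => ?_
    rw [Function.mem_support] at hd
    rw [Finset.mem_coe, Finset.mem_range]
    by_contra hlt
    apply hd
    have h1 : n < d := by omega
    have h2 : n / d ^ 2 = 0 := Nat.div_eq_of_lt (by nlinarith)
    rw [h2]
    simp
  have hm := moebius_hasSum.mul_right (n : ℝ)
  have hd : HasSum (fun d : ℕ => mu d * ((n / d ^ 2 : ℕ) : ℝ) - mu d * (1 / (d : ℝ) ^ 2) * n)
      ((Qn n : ℝ) - 6 / Real.pi ^ 2 * n) := by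
    refine HasSum.sub ?_ hm
    have h1 := hsum1.hasSum
    rw [← hc] at h1
    unfold Qn
    exact h1
  rw [← hd.tsum_eq]
  have hb : ∀ d : ℕ, ‖mu d * ((n / d ^ 2 : ℕ) : ℝ) - mu d * (1 / (d : ℝ) ^ 2) * n‖ ≤
      (n : ℝ) ^ (1 / 2 + δ) * (1 / (d : ℝ) ^ (1 + 2 * δ)) := by
    intro d
    rcases Nat.eq_zero_or_pos d with h | h
    · subst h
      simp [mu]
      positivity
    · have hd0 : (0 : ℝ) < d := by exact_mod_cast h
      have e : mu d * ((n / d ^ 2 : ℕ) : ℝ) - mu d * (1 / (d : ℝ) ^ 2) * n =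
          mu d * (((n / d ^ 2 : ℕ) : ℝ) - n / (d : ℝ) ^ 2) := by ring
      rw [e, norm_mul]
      have h1 : ((n / d ^ 2 : ℕ) : ℝ) ≤ n / (d : ℝ) ^ 2 := by
        have := Nat.cast_div_le (α := ℝ) (m := n) (n := d ^ 2)
        push_cast at this
        exact this
      have h2 : (n : ℝ) / (d : ℝ) ^ 2 ≤ ((n / d ^ 2 : ℕ) : ℝ) + 1 := by
        rw [div_le_iff₀ (by positivity)]
        have h3 := Nat.lt_div_mul_add (a := n) (b := d ^ 2) (by positivity)
        have h4 : ((n : ℕ) : ℝ) < ((n / d ^ 2 * d ^ 2 + d ^ 2 : ℕ) : ℝ) := by exact_mod_cast h3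
        push_cast at h4
        push_cast
        linarith
      have h3 : ‖((n / d ^ 2 : ℕ) : ℝ) - n / (d : ℝ) ^ 2‖ ≤ min 1 ((n : ℝ) / (d : ℝ) ^ 2) := by
        rw [Real.norm_eq_abs, abs_sub_comm, abs_of_nonneg (by linarith)]
        refine le_min (by linarith) ?_
        have : (0 : ℝ) ≤ ((n / d ^ 2 : ℕ) : ℝ) := Nat.cast_nonneg _
        linarith
      have h4 := min_pow (t := (n : ℝ) / (d : ℝ) ^ 2) (θ := 1 / 2 + δ) (by positivity)
        (by linarith) (by linarith)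
      have h5 : ((n : ℝ) / (d : ℝ) ^ 2) ^ (1 / 2 + δ) =
          (n : ℝ) ^ (1 / 2 + δ) * (1 / (d : ℝ) ^ (1 + 2 * δ)) := by
        rw [Real.div_rpow (by positivity) (by positivity), ← Real.rpow_natCast (d : ℝ) 2,
          ← Real.rpow_mul hd0.le]
        have : ((2 : ℕ) : ℝ) * (1 / 2 + δ) = 1 + 2 * δ := by push_cast; ring
        rw [this]
        ring
      calc ‖mu d‖ * ‖((n / d ^ 2 : ℕ) : ℝ) - n / (d : ℝ) ^ 2‖
          ≤ 1 * ((n : ℝ) / (d : ℝ) ^ 2) ^ (1 / 2 + δ) := by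
            refine mul_le_mul ?_ (h3.trans h4) (norm_nonneg _) zero_le_one
            rw [Real.norm_eq_abs]
            exact abs_mu_le d
        _ = _ := by rw [one_mul, h5]
  have h6 := tsum_of_norm_bounded ((hs.hasSum).mul_left ((n : ℝ) ^ (1 / 2 + δ))) hb
  rw [Real.norm_eq_abs] at h6
  refine h6.trans ?_
  rw [mul_comm]
  refine mul_le_mul_of_nonneg_right ?_ (by positivity)
  linarith

lemma Qn_real (δ : ℝ) (hδ : 0 < δ) (hδ2 : δ ≤ 1 / 2) : ∃ C : ℝ, 0 < C ∧ ∀ u : ℝ, 0 ≤ u →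
    |(Qn ⌊u⌋₊ : ℝ) - 6 / Real.pi ^ 2 * u| ≤ C * (1 + u) ^ (1 / 2 + δ) := by
  obtain ⟨C, hC, h⟩ := Qn_bound δ hδ hδ2
  refine ⟨C + 1, by linarith, fun u hu => ?_⟩
  have h1 := h ⌊u⌋₊
  have h2 : ((⌊u⌋₊ : ℕ) : ℝ) ≤ u := Nat.floor_le hu
  have h3 : u < (⌊u⌋₊ : ℕ) + 1 := Nat.lt_floor_add_one u
  have hpi : 6 / Real.pi ^ 2 ≤ 1 := by
    rw [div_le_one (by positivity)]
    have := Real.pi_gt_three
    nlinarith
  have hpi0 : 0 ≤ 6 / Real.pi ^ 2 := by positivity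
  have h4 : ((⌊u⌋₊ : ℕ) : ℝ) ^ (1 / 2 + δ) ≤ (1 + u) ^ (1 / 2 + δ) :=
    Real.rpow_le_rpow (Nat.cast_nonneg _) (by linarith) (by linarith)
  have h5 : (1 : ℝ) ≤ (1 + u) ^ (1 / 2 + δ) := Real.one_le_rpow (by linarith) (by linarith)
  have h6 : |6 / Real.pi ^ 2 * (⌊u⌋₊ : ℕ) - 6 / Real.pi ^ 2 * u| ≤ 1 := by
    rw [← mul_sub, abs_mul, abs_of_nonneg hpi0, abs_sub_comm, abs_of_nonneg (by linarith)]
    calc _ ≤ 1 * 1 := mul_le_mul hpi (by linarith) (by linarith) zero_le_one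
      _ = 1 := one_mul 1
  calc |(Qn ⌊u⌋₊ : ℝ) - 6 / Real.pi ^ 2 * u|
      ≤ |(Qn ⌊u⌋₊ : ℝ) - 6 / Real.pi ^ 2 * (⌊u⌋₊ : ℕ)| +
        |6 / Real.pi ^ 2 * (⌊u⌋₊ : ℕ) - 6 / Real.pi ^ 2 * u| := abs_sub_le _ _ _
    _ ≤ C * (1 + u) ^ (1 / 2 + δ) + 1 := add_le_add (h1.trans (mul_le_mul_of_nonneg_left h4 hC.le)) h6
    _ ≤ _ := by nlinarith

lemma wt_diag (X H : ℝ) (hH : 0 ≤ H) (n : ℕ) : wt X H n n =
    ∫ t in (-(H / 2))..(H / 2), (Set.Ioo (X - n) (2 * X - n)).indicator (fun _ => (1 : ℝ)) t := by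
  rw [ov (by linarith)]
  unfold wt
  rw [min_self, max_self]
  have h1 : min (2 * X) ((n : ℝ) + H / 2) = min (H / 2) (2 * X - n) + n := by
    rw [min_comm, ← min_add_add_right]
    congr 1 <;> ring
  have h2 : max X ((n : ℝ) - H / 2) = max (-(H / 2)) (X - n) + n := by
    rw [max_comm, ← max_add_add_right]
    congr 1 <;> ring
  rw [h1, h2]
  congr 1
  ring

/-- the number of squarefree integers in a window -/
lemma count_window (δ : ℝ) (hδ : 0 < δ) (hδ2 : δ ≤ 1 / 2) : ∃ C : ℝ, 0 < C ∧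
    ∀ (X t : ℝ) (N : ℕ), 1 ≤ X → |t| ≤ X / 2 → 3 * X ≤ N →
      |(∑ n ∈ (Icc 1 N).filter (fun n => open Classical in Squarefree n),
        (Set.Ioo (X - n) (2 * X - n)).indicator (fun _ => (1 : ℝ)) t) -
          6 / Real.pi ^ 2 * X| ≤ C * X ^ (1 / 2 + δ) := by
  classical
  obtain ⟨C, hC, h⟩ := Qn_real δ hδ hδ2
  refine ⟨2 * C * 4 ^ (1 / 2 + δ) + 1, by positivity, fun X t N hX ht hN => ?_⟩
  have ht' := abs_le.1 ht
  set a : ℝ := X - t with ha
  set b : ℝ := 2 * X - t with hb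
  have ha0 : 0 ≤ a := by rw [ha]; linarith
  have hb0 : 0 ≤ b := by rw [hb]; linarith
  set A := (Icc 1 ⌊b⌋₊).filter (fun n => Squarefree n) with hA
  set B := (Icc 1 ⌊a⌋₊).filter (fun n => Squarefree n) with hB
  set F := ((Icc 1 N).filter (fun n => Squarefree n)).filter
    (fun n : ℕ => a < n ∧ (n : ℝ) < b) with hF
  have e1 : ∑ n ∈ (Icc 1 N).filter (fun n => Squarefree n),
        (Set.Ioo (X - n) (2 * X - n)).indicator (fun _ => (1 : ℝ)) t = (F.card : ℝ) := by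
    rw [hF, card_filter]
    push_cast
    refine sum_congr rfl fun n _ => ?_
    by_cases hc : a < n ∧ (n : ℝ) < b
    · rw [if_pos hc, Set.indicator_of_mem]
      rw [ha, hb] at hc
      constructor <;> linarith [hc.1, hc.2]
    · rw [if_neg hc, Set.indicator_of_notMem]
      intro hm
      apply hc
      rw [ha, hb]
      rw [Set.mem_Ioo] at hm
      constructor <;> linarith [hm.1, hm.2]
  have hBA : B ⊆ A := by
    intro n hn
    rw [hB, mem_filter, mem_Icc] at hn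
    rw [hA, mem_filter, mem_Icc]
    refine ⟨⟨hn.1.1, hn.1.2.trans (Nat.floor_mono ?_)⟩, hn.2⟩
    rw [ha, hb]; linarith
  have h1 : F ⊆ A \ B := by
    intro n hn
    rw [hF, mem_filter, mem_filter, mem_Icc] at hn
    rw [Finset.mem_sdiff, hA, hB, mem_filter, mem_filter, mem_Icc, mem_Icc]
    refine ⟨⟨⟨hn.1.1.1, Nat.le_floor hn.2.2.le⟩, hn.1.2⟩, ?_⟩
    rintro ⟨⟨_, hc⟩, _⟩
    have := (Nat.le_floor_iff ha0).1 hc
    linarith [hn.2.1]
  have h2 : A \ B ⊆ F ∪ {⌊b⌋₊} := by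
    intro n hn
    rw [Finset.mem_sdiff, hA, hB, mem_filter, mem_filter, mem_Icc, mem_Icc] at hn
    rw [mem_union, mem_singleton]
    by_cases hc : n = ⌊b⌋₊
    · exact Or.inr hc
    · left
      have hlt : n < ⌊b⌋₊ := lt_of_le_of_ne hn.1.1.2 hc
      have hb' : ((⌊b⌋₊ : ℕ) : ℝ) ≤ b := Nat.floor_le hb0
      have hlt' : (n : ℝ) < (⌊b⌋₊ : ℕ) := by exact_mod_cast hlt
      have hnb : (n : ℝ) < b := by linarith
      have hbN : b ≤ N := by rw [hb]; linarith [ht'.1]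
      have hnN : n ≤ N := by
        have : (n : ℝ) ≤ N := by linarith
        exact_mod_cast this
      have hna : a < n := by
        by_contra hcc
        exact hn.2 ⟨⟨hn.1.1.1, Nat.le_floor (not_lt.1 hcc)⟩, hn.1.2⟩
      rw [hF, mem_filter, mem_filter, mem_Icc]
      exact ⟨⟨⟨hn.1.1.1, hnN⟩, hn.1.2⟩, hna, hnb⟩
  have c1 : F.card + B.card ≤ A.card := by
    have := card_le_card h1
    rw [card_sdiff_of_subset hBA] at this
    have := card_le_card hBA
    omega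
  have c2 : A.card ≤ F.card + 1 + B.card := by
    have := card_le_card h2
    rw [card_sdiff_of_subset hBA] at this
    have h3 : (F ∪ {⌊b⌋₊}).card ≤ F.card + 1 := by
      refine (card_union_le _ _).trans ?_
      rw [card_singleton]
    omega
  have c1' : (F.card : ℝ) + Qn ⌊a⌋₊ ≤ Qn ⌊b⌋₊ := by
    unfold Qn; exact_mod_cast c1
  have c2' : (Qn ⌊b⌋₊ : ℝ) ≤ F.card + 1 + Qn ⌊a⌋₊ := by
    unfold Qn; exact_mod_cast c2
  have d1 := abs_le.1 (h a ha0)
  have d2 := abs_le.1 (h b hb0)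
  have f1 : (1 + a) ^ (1 / 2 + δ) ≤ (4 * X) ^ (1 / 2 + δ) :=
    Real.rpow_le_rpow (by linarith) (by rw [ha]; linarith [ht'.1]) (by linarith)
  have f2 : (1 + b) ^ (1 / 2 + δ) ≤ (4 * X) ^ (1 / 2 + δ) :=
    Real.rpow_le_rpow (by linarith) (by rw [hb]; linarith [ht'.1]) (by linarith)
  have f3 : (4 * X) ^ (1 / 2 + δ) = 4 ^ (1 / 2 + δ) * X ^ (1 / 2 + δ) :=
    Real.mul_rpow (by norm_num) (by linarith)
  have f4 : (1 : ℝ) ≤ X ^ (1 / 2 + δ) := Real.one_le_rpow hX (by linarith)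
  rw [f3] at f1 f2
  have g1 := mul_le_mul_of_nonneg_left f1 hC.le
  have g2 := mul_le_mul_of_nonneg_left f2 hC.le
  have hab : 6 / Real.pi ^ 2 * b - 6 / Real.pi ^ 2 * a = 6 / Real.pi ^ 2 * X := by
    rw [ha, hb]; ring
  rw [e1, abs_le]
  constructor
  · nlinarith [d1.1, d1.2, d2.1, d2.2]
  · nlinarith [d1.1, d1.2, d2.1, d2.2]

/-- the diagonal part of the variance -/
theorem dg_bound (δ : ℝ) (hδ : 0 < δ) (hδ2 : δ ≤ 1 / 2) : ∃ C : ℝ, 0 < C ∧
    ∀ (X H : ℝ) (N : ℕ), 1 ≤ X → 0 < H → H ≤ X → 3 * X ≤ N →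
      |dg X H N - 6 / Real.pi ^ 2 * H| ≤ C * (H * X ^ (δ - 1 / 2)) := by
  classical
  obtain ⟨C, hC, h⟩ := count_window δ hδ hδ2
  refine ⟨C, hC, fun X H N hX hH hHX hN => ?_⟩
  have hX0 : 0 < X := by linarith
  have e1 : ∑ n ∈ (Icc 1 N).filter (fun n => Squarefree n), wt X H n n =
      ∫ t in (-(H / 2))..(H / 2), ∑ n ∈ (Icc 1 N).filter (fun n => Squarefree n),
        (Set.Ioo (X - n) (2 * X - n)).indicator (fun _ => (1 : ℝ)) t := by
    rw [intervalIntegral.integral_finsetSum]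
    · exact sum_congr rfl fun n _ => wt_diag X H hH.le n
    · intro n _
      refine Integrable.intervalIntegrable ?_
      rw [integrable_indicator_iff measurableSet_Ioo]
      exact integrableOn_const (by simp) (by simp)
  have hint : IntervalIntegrable (fun t => ∑ n ∈ (Icc 1 N).filter (fun n => Squarefree n),
        (Set.Ioo (X - n) (2 * X - n)).indicator (fun _ => (1 : ℝ)) t) volume (-(H / 2)) (H / 2) := by
    refine Integrable.intervalIntegrable (integrable_finsetSum _ fun n _ => ?_)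
    rw [integrable_indicator_iff measurableSet_Ioo]
    exact integrableOn_const (by simp) (by simp)
  have e2 : (∑ n ∈ (Icc 1 N).filter (fun n => Squarefree n), wt X H n n) -
      6 / Real.pi ^ 2 * X * H = ∫ t in (-(H / 2))..(H / 2),
        ((∑ n ∈ (Icc 1 N).filter (fun n => Squarefree n),
          (Set.Ioo (X - n) (2 * X - n)).indicator (fun _ => (1 : ℝ)) t) -
            6 / Real.pi ^ 2 * X) := by
    rw [intervalIntegral.integral_sub hint intervalIntegrable_const, e1,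
      intervalIntegral.integral_const, smul_eq_mul]
    ring
  have e3 : |(∑ n ∈ (Icc 1 N).filter (fun n => Squarefree n), wt X H n n) -
      6 / Real.pi ^ 2 * X * H| ≤ C * X ^ (1 / 2 + δ) * H := by
    rw [e2]
    have := intervalIntegral.norm_integral_le_of_norm_le_const (a := -(H / 2)) (b := H / 2)
      (C := C * X ^ (1 / 2 + δ)) (f := fun t =>
        ((∑ n ∈ (Icc 1 N).filter (fun n => Squarefree n),
          (Set.Ioo (X - n) (2 * X - n)).indicator (fun _ => (1 : ℝ)) t) -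
            6 / Real.pi ^ 2 * X)) (fun t ht => ?_)
    · rw [Real.norm_eq_abs] at this
      refine this.trans (le_of_eq ?_)
      have e : |H / 2 - -(H / 2)| = H := by
        rw [abs_of_pos (by linarith)]; ring
      rw [e]
    · rw [Set.uIoc_of_le (by linarith)] at ht
      rw [Real.norm_eq_abs]
      exact h X t N hX (abs_le.2 ⟨by linarith [ht.1], by linarith [ht.2]⟩) hN
  have e4 : dg X H N - 6 / Real.pi ^ 2 * H = (1 / X) *
      ((∑ n ∈ (Icc 1 N).filter (fun n => Squarefree n), wt X H n n) -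
        6 / Real.pi ^ 2 * X * H) := by
    unfold dg
    field_simp
  rw [e4, abs_mul, abs_of_pos (by positivity : 0 < 1 / X)]
  calc 1 / X * |(∑ n ∈ (Icc 1 N).filter (fun n => Squarefree n), wt X H n n) -
        6 / Real.pi ^ 2 * X * H| ≤ 1 / X * (C * X ^ (1 / 2 + δ) * H) :=
        mul_le_mul_of_nonneg_left e3 (by positivity)
    _ = C * (H * (X ^ (1 / 2 + δ) / X ^ (1 : ℝ))) := by rw [Real.rpow_one]; ring
    _ = _ := by
        rw [← Real.rpow_sub hX0]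
        congr 3
        ring

end Pool.Agent.U585.GC
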