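import Pool.Agent.U585.GC.Sum
import Pool.Agent.U585.GC.Diag

/-!
# Large deviations, Borel-Cantelli, interpolation
-/

set_option autoImplicit false
set_option linter.unusedSectionVars false

open MeasureTheory Filter Topology ProbabilityTheory

namespace Pool.Agent.U585.GC

variable {Ω : Type} [mΩ : MeasurableSpace Ω] {P : Measure Ω} [IsProbabilityMeasure P]
  {f : ℕ → Ω → ℝ}

/-- large deviations of the off-diagonal part -/
theorem large_dev (h : Signs P f) (ε : ℝ) (hε : 0 < ε) (m : ℕ) : ∃ K : ℝ, 0 < K ∧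
    ∀ (X H : ℝ) (N : ℕ), 1 ≤ X → 1 ≤ H → H ≤ X → (N : ℝ) ≤ 4 * X →
      P.real {ω | X ^ ε * √(H ^ 3 / X) < |poly (PN N) (cf X H N) (fun p => f p ω)|} ≤
        K / X ^ m := by
  obtain ⟨k, hk⟩ := exists_nat_gt (m / ε)
  set k' := k + 1 with hk'
  have hk1 : 1 ≤ k' := by omega
  have hkm : (m : ℝ) ≤ ε * k' := by
    rw [div_lt_iff₀ hε] at hk
    rw [hk']
    push_cast
    nlinarith
  obtain ⟨K, hK, hb⟩ := l2_bound (Ck k') ε (Ck_ge k') hε
  refine ⟨K ^ k', by positivity, fun X H N hX hH hHX hN => ?_⟩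
  have hX0 : 0 < X := by linarith
  have hH0 : 0 < H := by linarith
  set B := H ^ 3 / X with hB
  have hB0 : 0 < B := by positivity
  set Y : Ω → ℝ := fun ω => poly (PN N) (cf X H N) (fun p => f p ω) with hY
  have h1 : ∫ ω, Y ω ^ (2 * k') ∂P ≤ (K * X ^ ε * B) ^ k' := by
    refine (hyper h k' hk1 (PN N) (cf X H N)).trans ?_
    refine pow_le_pow_left₀ ?_ (hb X H N hX hH hHX hN) k'
    have := Ck_ge k'
    exact Finset.sum_nonneg fun U _ => by positivity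
  set lam := (X ^ ε * √B) ^ (2 * k') with hlam
  have hlam0 : 0 < lam := by positivity
  have hlam1 : lam = (X ^ ε * X ^ ε * B) ^ k' := by
    rw [hlam, pow_mul]
    congr 1
    rw [mul_pow, Real.sq_sqrt hB0.le]
    ring
  have h2 := mul_meas_ge_le_integral_of_nonneg (μ := P) (f := fun ω => Y ω ^ (2 * k'))
    (ae_of_all _ fun ω => by
      simp only [Pi.zero_apply]
      rw [pow_mul]; positivity) (poly_pow_int h _ _ _) lam
  have h3 : P.real {ω | X ^ ε * √B < |Y ω|} ≤ P.real {ω | lam ≤ Y ω ^ (2 * k')} := by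
    refine measureReal_mono ?_
    intro ω hω
    rw [Set.mem_ofPred_eq] at hω ⊢
    have : lam ≤ |Y ω| ^ (2 * k') := pow_le_pow_left₀ (by positivity) hω.le _
    rwa [pow_mul |Y ω|, sq_abs, ← pow_mul] at this
  have h4 : P.real {ω | lam ≤ Y ω ^ (2 * k')} ≤ (K * X ^ ε * B) ^ k' / lam := by
    rw [le_div_iff₀ hlam0, mul_comm]
    exact h2.trans h1
  refine h3.trans (h4.trans ?_)
  rw [hlam1, ← div_pow]
  have h5 : K * X ^ ε * B / (X ^ ε * X ^ ε * B) = K / X ^ ε := by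
    have : X ^ ε ≠ 0 := (Real.rpow_pos_of_pos hX0 ε).ne'
    field_simp
  rw [h5, div_pow]
  refine div_le_div_of_nonneg_left (by positivity) (by positivity) ?_
  rw [← Real.rpow_natCast (X ^ ε) k', ← Real.rpow_mul hX0.le, ← Real.rpow_natCast X m]
  exact Real.rpow_le_rpow_of_exponent_le hX hkm

/-- the condition on the points of the grid -/
def Cond (n a b : ℕ) : Prop :=
  (n : ℝ) - 1 ≤ a / (n : ℝ) ^ 4 ∧ 1 ≤ (b : ℝ) / (n : ℝ) ^ 4 ∧
    (b : ℝ) / (n : ℝ) ^ 4 ≤ a / (n : ℝ) ^ 4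

/-- the bad event at a point of the grid -/
def bad1 (f : ℕ → Ω → ℝ) (ε : ℝ) (n a b : ℕ) : Set Ω :=
  {ω | Cond n a b ∧ ((a : ℝ) / (n : ℝ) ^ 4) ^ ε *
      √(((b : ℝ) / (n : ℝ) ^ 4) ^ 3 / ((a : ℝ) / (n : ℝ) ^ 4)) <
    |poly (PN (3 * n)) (cf ((a : ℝ) / (n : ℝ) ^ 4) ((b : ℝ) / (n : ℝ) ^ 4) (3 * n))
      (fun p => f p ω)|}

/-- the bad event -/
def bad (f : ℕ → Ω → ℝ) (ε : ℝ) (n : ℕ) : Set Ω :=
  ⋃ z ∈ Finset.range (n ^ 5 + 1) ×ˢ Finset.range (n ^ 5 + 1), bad1 f ε n z.1 z.2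

lemma bad_small (h : Signs P f) (ε : ℝ) (hε : 0 < ε) : ∃ K : ℝ, 0 < K ∧ ∀ n : ℕ, 4 ≤ n →
    P.real (bad f ε n) ≤ K / (n : ℝ) ^ 2 := by
  obtain ⟨K, hK, hd⟩ := large_dev h ε hε 12
  refine ⟨K * 2 ^ 14, by positivity, fun n hn => ?_⟩
  have hn0 : (4 : ℝ) ≤ n := by exact_mod_cast hn
  have h1 : ∀ z ∈ Finset.range (n ^ 5 + 1) ×ˢ Finset.range (n ^ 5 + 1),
      P.real (bad1 f ε n z.1 z.2) ≤ K * 2 ^ 12 / (n : ℝ) ^ 12 := by
    intro z hz
    by_cases hc : Cond n z.1 z.2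
    · obtain ⟨c1, c2, c3⟩ := hc
      have hX : 1 ≤ (z.1 : ℝ) / (n : ℝ) ^ 4 := by linarith
      have hN : ((3 * n : ℕ) : ℝ) ≤ 4 * ((z.1 : ℝ) / (n : ℝ) ^ 4) := by push_cast; linarith
      have h2 := hd _ _ (3 * n) hX c2 c3 hN
      have h3 : P.real (bad1 f ε n z.1 z.2) ≤ K / ((z.1 : ℝ) / (n : ℝ) ^ 4) ^ 12 := by
        refine le_trans (measureReal_mono ?_) h2
        intro ω hω
        exact hω.2
      refine h3.trans ?_
      have h4 : (n : ℝ) / 2 ≤ (z.1 : ℝ) / (n : ℝ) ^ 4 := by linarith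
      have h5 : ((n : ℝ) / 2) ^ 12 ≤ ((z.1 : ℝ) / (n : ℝ) ^ 4) ^ 12 :=
        pow_le_pow_left₀ (by positivity) h4 12
      calc K / ((z.1 : ℝ) / (n : ℝ) ^ 4) ^ 12 ≤ K / ((n : ℝ) / 2) ^ 12 :=
            div_le_div_of_nonneg_left hK.le (by positivity) h5
        _ = _ := by rw [div_pow]; field_simp
    · have : bad1 f ε n z.1 z.2 = ∅ := by
        ext ω
        simp only [Set.mem_empty_iff_false, iff_false]
        exact fun hω => hc hω.1
      rw [this, measureReal_empty]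
      positivity
  have h2 : P.real (bad f ε n) ≤ ∑ z ∈ Finset.range (n ^ 5 + 1) ×ˢ Finset.range (n ^ 5 + 1),
      P.real (bad1 f ε n z.1 z.2) := measureReal_biUnion_finset_le _ _
  refine (h2.trans (Finset.sum_le_sum h1)).trans ?_
  rw [Finset.sum_const, Finset.card_product, Finset.card_range, nsmul_eq_mul]
  push_cast
  have h3 : ((n : ℝ) ^ 5 + 1) ≤ 2 * (n : ℝ) ^ 5 := by
    have : (1 : ℝ) ≤ (n : ℝ) ^ 5 := one_le_pow₀ (by linarith)
    linarith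
  have h4 : ((n : ℝ) ^ 5 + 1) * ((n : ℝ) ^ 5 + 1) ≤ (2 * (n : ℝ) ^ 5) * (2 * (n : ℝ) ^ 5) :=
    mul_le_mul h3 h3 (by positivity) (by positivity)
  calc ((n : ℝ) ^ 5 + 1) * ((n : ℝ) ^ 5 + 1) * (K * 2 ^ 12 / (n : ℝ) ^ 12)
      ≤ (2 * (n : ℝ) ^ 5) * (2 * (n : ℝ) ^ 5) * (K * 2 ^ 12 / (n : ℝ) ^ 12) :=
        mul_le_mul_of_nonneg_right h4 (by positivity)
    _ = _ := by field_simp

lemma ae_good (h : Signs P f) (ε : ℝ) (hε : 0 < ε) : ∀ᵐ ω ∂P, ∀ᶠ n : ℕ in atTop, ω ∉ bad f ε n := by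
  obtain ⟨K, hK, hb⟩ := bad_small h ε hε
  have hsum : ∑' n : ℕ, P (bad f ε (n + 4)) ≠ ⊤ := by
    have h1 : ∀ n : ℕ, P (bad f ε (n + 4)) ≤ ENNReal.ofReal (K / ((n + 4 : ℕ) : ℝ) ^ 2) := by
      intro n
      rw [← ofReal_measureReal]
      exact ENNReal.ofReal_le_ofReal (hb (n + 4) (by omega))
    have h2 : Summable fun n : ℕ => K / ((n + 4 : ℕ) : ℝ) ^ 2 := by
      have h3 : Summable fun n : ℕ => K / (n : ℝ) ^ 2 := by
        have := (Real.summable_one_div_nat_pow.2 (by norm_num : 1 < 2)).mul_left K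
        refine this.congr fun n => ?_
        ring
      exact (summable_nat_add_iff 4).2 h3
    refine ne_top_of_le_ne_top ?_ (ENNReal.tsum_le_tsum h1)
    exact h2.tsum_ofReal_ne_top
  have h4 := ae_eventually_notMem hsum
  filter_upwards [h4] with ω hω
  rw [eventually_atTop] at hω ⊢
  obtain ⟨n0, hn0⟩ := hω
  refine ⟨n0 + 4, fun n hn => ?_⟩
  have := hn0 (n - 4) (by omega)
  rwa [show n - 4 + 4 = n by omega] at this

end Pool.Agent.U585.GC
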