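import Pool.Agent.U585.GC.Bor

/-!
# The variance in all windows
-/

set_option autoImplicit false
set_option linter.unusedSectionVars false

open MeasureTheory Filter Topology ProbabilityTheory

namespace Pool.Agent.U585.GC

variable {Ω : Type} [mΩ : MeasurableSpace Ω] {P : Measure Ω} [IsProbabilityMeasure P]
  {f : ℕ → Ω → ℝ}

lemma inv_le_size {X H ε : ℝ} (hX : 1 ≤ X) (hH : 1 ≤ H) (hε : 0 ≤ ε) :
    1 / X ≤ X ^ ε * √(H ^ 3 / X) := by
  have hX0 : 0 < X := by linarith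
  have h1 : 1 / X ≤ √(H ^ 3 / X) := by
    rw [Real.le_sqrt (by positivity) (by positivity)]
    have h2 : 1 ≤ H ^ 3 := one_le_pow₀ hH
    have h3 : (1 / X) ^ 2 ≤ 1 / X := by
      rw [sq]
      exact mul_le_of_le_one_left (by positivity) ((div_le_one hX0).2 hX)
    exact h3.trans (div_le_div_of_nonneg_right h2 hX0.le)
  have h2 : 1 ≤ X ^ ε := Real.one_le_rpow hX hε
  calc 1 / X ≤ 1 * √(H ^ 3 / X) := by rw [one_mul]; exact h1
    _ ≤ _ := mul_le_mul_of_nonneg_right h2 (Real.sqrt_nonneg _)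

lemma sqrt_size {X H : ℝ} (hX : 0 < X) (hH : 1 ≤ H) : H * X ^ (-(1 / 2) : ℝ) ≤ √(H ^ 3 / X) := by
  rw [Real.le_sqrt (by positivity) (by positivity), mul_pow, ← Real.rpow_natCast (X ^ _) 2,
    ← Real.rpow_mul hX.le]
  have : (-(1 / 2) : ℝ) * ((2 : ℕ) : ℝ) = -1 := by push_cast; ring
  rw [this, Real.rpow_neg_one, div_eq_mul_inv]
  refine mul_le_mul_of_nonneg_right ?_ (by positivity)
  nlinarith [sq_nonneg H]

/-- the deterministic conclusion for one `ε ≤ 1/2` -/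
theorem det (h : Signs P f) {ε : ℝ} (hε : 0 < ε) (hε2 : ε ≤ 1 / 2) {ω : Ω}
    (hω : ∀ᶠ n : ℕ in atTop, ω ∉ bad f ε n) :
    ∃ C : ℝ, 0 < C ∧ ∀ X H : ℝ, 1 ≤ X → 1 ≤ H → H ≤ X →
      |VV (fun p => f p ω) X H - 6 / Real.pi ^ 2 * H| ≤ C * (X ^ ε * √(H ^ 3 / X)) := by
  obtain ⟨n1, hn1⟩ := eventually_atTop.1 hω
  set n0 := max n1 4 with hn0
  obtain ⟨C1, hC1, hdg⟩ := dg_bound ε hε hε2
  have hsg : ∀ p, (fun p => f p ω) p = 1 ∨ (fun p => f p ω) p = -1 := fun p => h.val p ω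
  have hpi : 6 / Real.pi ^ 2 ≤ 1 := by
    rw [div_le_one (by positivity)]
    have := Real.pi_gt_three
    nlinarith
  have hpi0 : 0 ≤ 6 / Real.pi ^ 2 := by positivity
  refine ⟨(48 + C1) + 17 * (n0 : ℝ) ^ 3, by positivity, fun X H hX hH hHX => ?_⟩
  have hX0 : 0 < X := by linarith
  have hH0 : 0 < H := by linarith
  set G := X ^ ε * √(H ^ 3 / X) with hG
  have hG1 : 1 / X ≤ G := inv_le_size hX hH hε.le
  have hG0 : 0 < G := lt_of_lt_of_le (by positivity) hG1
  rcases lt_or_ge X n0 with hlt | hge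
  · -- small `X`
    have h1 := VV_le (fun p => f p ω) hsg hX hH0 hHX
    have h2 : |VV (fun p => f p ω) X H - 6 / Real.pi ^ 2 * H| ≤ 17 * X ^ 2 := by
      refine (abs_sub _ _).trans ?_
      have h3 : |6 / Real.pi ^ 2 * H| ≤ X ^ 2 := by
        rw [abs_of_nonneg (by positivity)]
        calc 6 / Real.pi ^ 2 * H ≤ 1 * X := mul_le_mul hpi hHX hH0.le zero_le_one
          _ ≤ X ^ 2 := by nlinarith
      linarith
    have h3 : X ^ 2 ≤ (n0 : ℝ) ^ 3 * G := by
      have h4 : X ^ 3 ≤ (n0 : ℝ) ^ 3 := pow_le_pow_left₀ hX0.le hlt.le 3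
      calc X ^ 2 = X ^ 3 * (1 / X) := by field_simp
        _ ≤ (n0 : ℝ) ^ 3 * G := mul_le_mul h4 hG1 (by positivity) (by positivity)
    have h4 : 0 ≤ (48 + C1) * G := by positivity
    calc _ ≤ 17 * X ^ 2 := h2
      _ ≤ 17 * ((n0 : ℝ) ^ 3 * G) := mul_le_mul_of_nonneg_left h3 (by norm_num)
      _ ≤ _ := by linarith
  · -- large `X`
    set n := ⌈X⌉₊ with hn
    have hXn : X ≤ n := Nat.le_ceil X
    have hnX : (n : ℝ) < X + 1 := Nat.ceil_lt_add_one hX0.le
    have hn0' : n0 ≤ n := by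
      have : (n0 : ℝ) ≤ n := hge.trans hXn
      exact_mod_cast this
    have hn4 : 4 ≤ n := (le_max_right _ _).trans hn0'
    have hnn1 : n1 ≤ n := (le_max_left _ _).trans hn0'
    have hn4R : (4 : ℝ) ≤ n := by exact_mod_cast hn4
    have hX3 : 3 < X := by linarith
    have hnpos : (0 : ℝ) < (n : ℝ) ^ 4 := by positivity
    set M : ℝ := (n : ℝ) ^ 4 with hM
    set a := ⌈X * M⌉₊ with ha
    set b := ⌊H * M⌋₊ with hb
    set X' := (a : ℝ) / M with hX'
    set H' := (b : ℝ) / M with hH'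
    have a1 : X ≤ X' := by
      rw [hX', le_div_iff₀ hnpos]; exact Nat.le_ceil _
    have a2 : X' ≤ X + 1 / M := by
      rw [hX', div_le_iff₀ hnpos, add_mul, one_div_mul_cancel hnpos.ne']
      exact (Nat.ceil_lt_add_one (by positivity)).le
    have a3 : X' ≤ n := by
      rw [hX', div_le_iff₀ hnpos]
      have : X * M ≤ ((n ^ 5 : ℕ) : ℝ) := by
        push_cast
        calc X * M ≤ n * M := mul_le_mul_of_nonneg_right hXn hnpos.le
          _ = _ := by rw [hM]; ring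
      have h2 : a ≤ n ^ 5 := Nat.ceil_le.2 this
      have h3 : (a : ℝ) ≤ ((n ^ 5 : ℕ) : ℝ) := by exact_mod_cast h2
      calc (a : ℝ) ≤ ((n ^ 5 : ℕ) : ℝ) := h3
        _ = _ := by push_cast; rw [hM]; ring
    have b1 : H' ≤ H := by
      rw [hH', div_le_iff₀ hnpos]; exact Nat.floor_le (by positivity)
    have b2 : H - 1 / M ≤ H' := by
      rw [hH', le_div_iff₀ hnpos, sub_mul, one_div_mul_cancel hnpos.ne']
      linarith [Nat.lt_floor_add_one (H * M)]
    have b3 : 1 ≤ H' := by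
      rw [hH', le_div_iff₀ hnpos, one_mul]
      have h2 : n ^ 4 ≤ b := by
        refine Nat.le_floor ?_
        push_cast
        calc (n : ℝ) ^ 4 = 1 * M := by rw [one_mul]
          _ ≤ H * M := mul_le_mul_of_nonneg_right hH hnpos.le
      calc M = ((n ^ 4 : ℕ) : ℝ) := by push_cast; rfl
        _ ≤ b := by exact_mod_cast h2
    have hH'0 : 0 < H' := by linarith
    have hH'X' : H' ≤ X' := b1.trans (hHX.trans a1)
    have hX'1 : 1 ≤ X' := hX.trans a1
    have hX'0 : 0 < X' := by linarith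
    have hX'2 : X' ≤ 2 * X := by
      have : 1 / M ≤ 1 := by
        rw [div_le_one hnpos]; exact one_le_pow₀ (by linarith)
      linarith
    have ha5 : a < n ^ 5 + 1 := by
      have : X * M ≤ ((n ^ 5 : ℕ) : ℝ) := by
        push_cast
        calc X * M ≤ n * M := mul_le_mul_of_nonneg_right hXn hnpos.le
          _ = _ := by rw [hM]; ring
      have h2 : a ≤ n ^ 5 := Nat.ceil_le.2 this
      omega
    have hb5 : b < n ^ 5 + 1 := by
      have h1 : (b : ℝ) ≤ a := by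
        have := mul_le_mul_of_nonneg_right hH'X' hnpos.le
        rw [hH', hX', div_mul_cancel₀ _ hnpos.ne', div_mul_cancel₀ _ hnpos.ne'] at this
        exact this
      have h2 : b ≤ a := by exact_mod_cast h1
      omega
    -- the off-diagonal part at the point of the grid
    have hY : |poly (PN (3 * n)) (cf X' H' (3 * n)) (fun p => f p ω)| ≤
        X' ^ ε * √(H' ^ 3 / X') := by
      by_contra hcon
      refine hn1 n hnn1 ?_
      unfold bad
      rw [Set.mem_iUnion₂]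
      refine ⟨(a, b), ?_, ?_⟩
      · rw [Finset.mem_product, Finset.mem_range, Finset.mem_range]
        exact ⟨ha5, hb5⟩
      · exact ⟨⟨by linarith, b3, hH'X'⟩, not_le.1 hcon⟩
    have hN : 3 * X' ≤ ((3 * n : ℕ) : ℝ) := by push_cast; linarith
    have hV := VV_eq (s := fun p => f p ω) hsg (X := X') (H := H') (N := 3 * n) hX'0 hH'0 hH'X' hN
    have hD := hdg X' H' (3 * n) hX'1 hH'0 hH'X' hN
    have hL := VV_lip (fun p => f p ω) hsg (X := X) (H := H) (X' := X') (H' := H') (N := 3 * n)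
      hX a1 hH0 hHX hH'0 hH'X' hN
    -- comparison of the sizes
    have c1 : √(H' ^ 3 / X') ≤ √(H ^ 3 / X) := by
      refine Real.sqrt_le_sqrt ?_
      exact div_le_div₀ (by positivity) (pow_le_pow_left₀ hH'0.le b1 3) hX0 a1
    have c2 : X' ^ ε ≤ 2 * X ^ ε := by
      calc X' ^ ε ≤ (2 * X) ^ ε := Real.rpow_le_rpow hX'0.le hX'2 hε.le
        _ = 2 ^ ε * X ^ ε := Real.mul_rpow (by norm_num) hX0.le
        _ ≤ 2 ^ (1 : ℝ) * X ^ ε := mul_le_mul_of_nonneg_right
            (Real.rpow_le_rpow_of_exponent_le (by norm_num) (by linarith)) (by positivity)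
        _ = _ := by rw [Real.rpow_one]
    have d1 : |poly (PN (3 * n)) (cf X' H' (3 * n)) (fun p => f p ω)| ≤ 2 * G := by
      refine hY.trans ?_
      calc X' ^ ε * √(H' ^ 3 / X') ≤ (2 * X ^ ε) * √(H ^ 3 / X) :=
            mul_le_mul c2 c1 (Real.sqrt_nonneg _) (by positivity)
        _ = _ := by rw [hG]; ring
    have d2 : |dg X' H' (3 * n) - 6 / Real.pi ^ 2 * H'| ≤ C1 * G := by
      refine hD.trans (mul_le_mul_of_nonneg_left ?_ hC1.le)
      have e1 : X' ^ (ε - 1 / 2) ≤ X ^ (ε - 1 / 2) :=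
        Real.rpow_le_rpow_of_nonpos hX0 a1 (by linarith)
      have e2 : X ^ (ε - 1 / 2) = X ^ ε * X ^ (-(1 / 2) : ℝ) := by
        rw [← Real.rpow_add hX0]; congr 1
      calc H' * X' ^ (ε - 1 / 2) ≤ H * X ^ (ε - 1 / 2) :=
            mul_le_mul b1 e1 (by positivity) hH0.le
        _ = X ^ ε * (H * X ^ (-(1 / 2) : ℝ)) := by rw [e2]; ring
        _ ≤ _ := mul_le_mul_of_nonneg_left (sqrt_size hX0 hH) (by positivity)
    have hMX : 1 / M ≤ 1 / X := by
      refine one_div_le_one_div_of_le hX0 ?_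
      have : (n : ℝ) ≤ (n : ℝ) ^ 4 := le_self_pow₀ (by linarith) (by norm_num)
      exact hXn.trans this
    have d3 : |VV (fun p => f p ω) X H - VV (fun p => f p ω) X' H'| ≤ 45 * G := by
      refine hL.trans ?_
      have e1 : |X - X'| ≤ 1 / M := by
        rw [abs_sub_comm, abs_of_nonneg (by linarith)]; linarith
      have e2 : |H - H'| ≤ 1 / M := by
        rw [abs_of_nonneg (by linarith)]; linarith
      have e3 : ((3 * n : ℕ) : ℝ) ^ 2 * (4 * |X - X'| + |H - H'|) ≤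
          ((3 * n : ℕ) : ℝ) ^ 2 * (5 * (1 / M)) :=
        mul_le_mul_of_nonneg_left (by linarith) (by positivity)
      refine e3.trans ?_
      have e4 : ((3 * n : ℕ) : ℝ) ^ 2 * (5 * (1 / M)) = 45 * (1 / (n : ℝ) ^ 2) := by
        rw [hM]; push_cast; field_simp; norm_num
      rw [e4]
      have e5 : 1 / (n : ℝ) ^ 2 ≤ 1 / X := by
        refine one_div_le_one_div_of_le hX0 ?_
        nlinarith
      linarith
    have d4 : |6 / Real.pi ^ 2 * H' - 6 / Real.pi ^ 2 * H| ≤ G := by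
      rw [← mul_sub, abs_mul, abs_of_nonneg hpi0, abs_sub_comm, abs_of_nonneg (by linarith)]
      calc 6 / Real.pi ^ 2 * (H - H') ≤ 1 * (1 / M) :=
            mul_le_mul hpi (by linarith) (by linarith) zero_le_one
        _ ≤ G := by rw [one_mul]; linarith
    have e : VV (fun p => f p ω) X H - 6 / Real.pi ^ 2 * H =
        (VV (fun p => f p ω) X H - VV (fun p => f p ω) X' H') +
        (dg X' H' (3 * n) - 6 / Real.pi ^ 2 * H') +
        poly (PN (3 * n)) (cf X' H' (3 * n)) (fun p => f p ω) +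
        (6 / Real.pi ^ 2 * H' - 6 / Real.pi ^ 2 * H) := by
      rw [hV]; ring
    rw [e]
    have t1 := abs_add_le ((VV (fun p => f p ω) X H - VV (fun p => f p ω) X' H') +
        (dg X' H' (3 * n) - 6 / Real.pi ^ 2 * H') +
        poly (PN (3 * n)) (cf X' H' (3 * n)) (fun p => f p ω))
        (6 / Real.pi ^ 2 * H' - 6 / Real.pi ^ 2 * H)
    have t2 := abs_add_le ((VV (fun p => f p ω) X H - VV (fun p => f p ω) X' H') +
        (dg X' H' (3 * n) - 6 / Real.pi ^ 2 * H'))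
        (poly (PN (3 * n)) (cf X' H' (3 * n)) (fun p => f p ω))
    have t3 := abs_add_le (VV (fun p => f p ω) X H - VV (fun p => f p ω) X' H')
        (dg X' H' (3 * n) - 6 / Real.pi ^ 2 * H')
    have t4 : 0 ≤ 17 * (n0 : ℝ) ^ 3 * G := by positivity
    linarith

/-- The random Good-Churchhouse law, uniform in all windows. -/
theorem main (h : Signs P f) : ∀ᵐ ω ∂P, ∀ ε : ℝ, 0 < ε → ∃ C : ℝ, ∀ X H : ℝ, 1 ≤ H → H ≤ X →
    |VV (fun p => f p ω) X H - 6 / Real.pi ^ 2 * H| ≤ C * (X ^ ε * √(H ^ 3 / X)) := by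
  have h1 : ∀ᵐ ω ∂P, ∀ j : ℕ, ∀ᶠ n : ℕ in atTop, ω ∉ bad f (1 / ((j : ℝ) + 2)) n :=
    ae_all_iff.2 fun j => ae_good h _ (by positivity)
  filter_upwards [h1] with ω hω ε hε
  obtain ⟨j, hj⟩ := exists_nat_one_div_lt hε
  have hj2 : (1 : ℝ) / ((j : ℝ) + 2) ≤ ε := by
    refine le_trans ?_ hj.le
    exact one_div_le_one_div_of_le (by positivity) (by linarith)
  have hj3 : (1 : ℝ) / ((j : ℝ) + 2) ≤ 1 / 2 :=
    one_div_le_one_div_of_le (by norm_num) (by
      have : (0 : ℝ) ≤ j := Nat.cast_nonneg _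
      linarith)
  obtain ⟨C, hC, hb⟩ := det h (by positivity) hj3 (hω j)
  refine ⟨C, fun X H hH hHX => ?_⟩
  have hX : 1 ≤ X := hH.trans hHX
  refine (hb X H hX hH hHX).trans ?_
  refine mul_le_mul_of_nonneg_left ?_ hC.le
  refine mul_le_mul_of_nonneg_right ?_ (Real.sqrt_nonneg _)
  exact Real.rpow_le_rpow_of_exponent_le hX hj2

/-- the conclusion in the form of the problem -/
theorem of_main {s : ℕ → ℝ} (h : ∀ ε : ℝ, 0 < ε → ∃ C : ℝ, ∀ X H : ℝ, 1 ≤ H → H ≤ X →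
    |VV s X H - 6 / Real.pi ^ 2 * H| ≤ C * (X ^ ε * √(H ^ 3 / X))) (ε : ℝ) (hε : 0 < ε)
    (H : ℝ → ℝ) (hH : ∀ᶠ X in atTop, X ^ ε < H X ∧ H X < X ^ (1 - ε)) :
    Tendsto (fun X : ℝ => VV s X (H X) / (H X / (Real.pi ^ 2 / 6))) atTop (𝓝 1) := by
  obtain ⟨C, hC⟩ := h (ε / 4) (by linarith)
  have hlim : Tendsto (fun X : ℝ => (C * 2) * X ^ (-(ε / 4))) atTop (𝓝 0) := by
    have := (tendsto_rpow_neg_atTop (by linarith : 0 < ε / 4)).const_mul (C * 2)
    rwa [mul_zero] at this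
  rw [tendsto_iff_norm_sub_tendsto_zero]
  refine squeeze_zero' (Eventually.of_forall fun X => norm_nonneg _) ?_ hlim
  filter_upwards [hH, eventually_ge_atTop 1] with X hX hX1
  have hX0 : 0 < X := by linarith
  set K := H X with hK
  have hK1 : 1 ≤ K := (Real.one_le_rpow hX1 hε.le).trans hX.1.le
  have hK0 : 0 < K := by linarith
  have hKX : K ≤ X := hX.2.le.trans (by
    calc X ^ (1 - ε) ≤ X ^ (1 : ℝ) := Real.rpow_le_rpow_of_exponent_le hX1 (by linarith)
      _ = X := Real.rpow_one X)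
  have h1 := hC X K hK1 hKX
  have hC0 : 0 ≤ C := by
    have h2 : 0 ≤ C * (X ^ (ε / 4) * √(K ^ 3 / X)) := (abs_nonneg _).trans h1
    have h3 : 0 < X ^ (ε / 4) * √(K ^ 3 / X) := by positivity
    exact nonneg_of_mul_nonneg_left h2 h3
  have hpi : (0 : ℝ) < Real.pi ^ 2 := by positivity
  have hpi2 : Real.pi ^ 2 / 6 ≤ 2 := by
    have := Real.pi_lt_d2
    have := Real.pi_pos
    nlinarith
  have e1 : VV s X K / (K / (Real.pi ^ 2 / 6)) - 1 =
      (VV s X K - 6 / Real.pi ^ 2 * K) * (Real.pi ^ 2 / 6) / K := by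
    field_simp
  rw [e1, Real.norm_eq_abs, abs_div, abs_mul, abs_of_pos hK0, abs_of_pos (by positivity :
    0 < Real.pi ^ 2 / 6), div_le_iff₀ hK0]
  have h3 : √(K ^ 3 / X) ≤ K * X ^ (-(ε / 2)) := by
    refine Real.sqrt_le_iff.2 ⟨by positivity, ?_⟩
    rw [mul_pow, ← Real.rpow_natCast (X ^ _) 2, ← Real.rpow_mul hX0.le]
    have e2 : (-(ε / 2)) * ((2 : ℕ) : ℝ) = (1 - ε) - 1 := by push_cast; ring
    rw [e2, Real.rpow_sub_one hX0.ne']
    calc K ^ 3 / X = K ^ 2 * (K / X) := by ring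
      _ ≤ K ^ 2 * (X ^ (1 - ε) / X) := by
          refine mul_le_mul_of_nonneg_left ?_ (by positivity)
          exact div_le_div_of_nonneg_right hX.2.le hX0.le
  calc |VV s X K - 6 / Real.pi ^ 2 * K| * (Real.pi ^ 2 / 6)
      ≤ (C * (X ^ (ε / 4) * √(K ^ 3 / X))) * 2 :=
        mul_le_mul h1 hpi2 (by positivity) (by positivity)
    _ ≤ (C * (X ^ (ε / 4) * (K * X ^ (-(ε / 2))))) * 2 := by gcongr
    _ = (C * 2) * (X ^ (ε / 4) * X ^ (-(ε / 2))) * K := by ring
    _ = _ := by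
        rw [← Real.rpow_add hX0]
        congr 3
        ring

end Pool.Agent.U585.GC
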